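import Pool.Agent.Lib.MP_16285c_agX.Box.Spec

/-!
# The numerator of `A ∘ f`
-/

set_option autoImplicit false

namespace Pool.Agent.Lib.MP_16285c_agX

open MvPolynomial
open Pool.Agent.Lib.MP_16285c_ag (RM)
open Pool.Agent.ZDO (dd nn hz)

namespace HcnM

theorem map_hc (R S : Type) [CommRing R] [CommRing S] (φ : R →+* S) (c : ℕ) (f : RM R c) (N : ℕ)
    (A : MvPolynomial (Fin c) R) : map φ (hcn f N A) = hcn (f.map φ) N (map φ A) := by
  have h1 : (fun i => map φ ((Fin.cons (α := fun _ => MvPolynomial (Fin c) R) (dd f) (nn f) :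
      Fin (c + 1) → MvPolynomial (Fin c) R) i)) =
      Fin.cons (α := fun _ => MvPolynomial (Fin c) S) (dd (f.map φ)) (nn (f.map φ)) := by
    funext i
    refine Fin.cases ?_ (fun i => ?_) i
    · rw [Fin.cons_zero, Fin.cons_zero, Pool.Agent.ZDO.dd_map]
    · rw [Fin.cons_succ, Fin.cons_succ, Pool.Agent.ZDO.nn_map]
  rw [hcn, hcn, map_bind₁, Pool.Agent.ZDO.hz_map, h1]

theorem aeval_hc (κ L : Type) [Field κ] [Field L] [Algebra κ L] (c : ℕ) (f : RM κ c) (N : ℕ)
    (A : MvPolynomial (Fin c) κ) (ξ : Fin c → L) (hA : A.totalDegree ≤ N)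
    (hd : ∀ i, aeval ξ (f.den i) ≠ 0) :
    aeval ξ (hcn f N A) = aeval ξ (dd f) ^ N * aeval (fvn f ξ) A := by
  have hn : ∀ i, aeval ξ (nn f i) = fvn f ξ i * aeval ξ (dd f) := by
    intro i
    rw [nn, Pool.Agent.ZDO.dd_eq f i, map_mul, map_mul, fvn, ← mul_assoc, div_mul_cancel₀ _ (hd i)]
  have h0 : aeval (fvn f ξ) A =
      ∑ m ∈ A.support, algebraMap κ L (coeff m A) * ∏ i ∈ m.support, fvn f ξ i ^ m i := by
    rw [aeval_def, eval₂_eq]
  rw [hcn, hz, map_sum, map_sum, h0, Finset.mul_sum]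
  refine Finset.sum_congr rfl fun m hm => ?_
  have h1 : m.degree ≤ N := by
    rw [Finsupp.degree_apply]
    exact (le_totalDegree hm).trans hA
  rw [Pool.Agent.ZDO.hmon]
  simp only [map_mul, map_pow, map_prod, bind₁_X_right, Fin.cons_zero, Fin.cons_succ, bind₁_C_right,
    aeval_C]
  simp only [hn, mul_pow, Finset.prod_mul_distrib, Finset.prod_pow_eq_pow_sum]
  have h2 : ∑ i, m i = m.degree := (Finsupp.degree_eq_sum m).symm
  have h3 : ∏ i ∈ m.support, fvn f ξ i ^ m i = ∏ i, fvn f ξ i ^ m i := by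
    refine Finset.prod_subset (Finset.subset_univ _) fun i _ hi => ?_
    rw [Finsupp.notMem_support_iff.1 hi, pow_zero]
  rw [h2, h3]
  have h4 : aeval ξ (dd f) ^ N = aeval ξ (dd f) ^ (N - m.degree) * aeval ξ (dd f) ^ m.degree := by
    rw [← pow_add]
    congr 1
    omega
  rw [h4]
  ring

theorem dd_ne {κ L : Type} [Field κ] [Field L] [Algebra κ L] {c : ℕ} (f : RM κ c) (ξ : Fin c → L)
    (hd : ∀ i, aeval ξ (f.den i) ≠ 0) : aeval ξ (dd f) ≠ 0 := by
  rw [dd, map_prod]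
  exact Finset.prod_ne_zero_iff.2 fun i _ => hd i

theorem keeps_of (κ : Type) [Field κ] (c : ℕ) (P : MvPolynomial (Fin c) κ) (f : RM κ c) (N : ℕ)
    (hN : P.totalDegree ≤ N) (h : P ∣ hcn f N P) : KeepsN P f := by
  intro L _ _ ξ hξ hd
  obtain ⟨W, hW⟩ := h
  have h1 := aeval_hc κ L c f N P ξ hN hd
  rw [hW, map_mul, hξ, zero_mul] at h1
  exact (mul_eq_zero.1 h1.symm).resolve_left (pow_ne_zero _ (dd_ne f ξ hd))

theorem dvd_of (κ : Type) [Field κ] (c : ℕ) (P : MvPolynomial (Fin c) κ) (f : RM κ c) (hP : Irreducible P)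
    (hden : ∀ i, f.den i ≠ 0)
    (h : ∃ E N : MvPolynomial (Fin c) κ, ¬ P ∣ E ∧
      algebraMap (MvPolynomial (Fin c) κ) (FractionRing (MvPolynomial (Fin c) κ)) (P * N) =
        algebraMap (MvPolynomial (Fin c) κ) (FractionRing (MvPolynomial (Fin c) κ)) E * f.comp P) :
    P ∣ hcn f P.totalDegree P := by
  obtain ⟨E, N, hE, hEN⟩ := h
  set fr := algebraMap (MvPolynomial (Fin c) κ) (FractionRing (MvPolynomial (Fin c) κ)) with hfr
  have hinj : Function.Injective fr := IsFractionRing.injective _ _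
  have h1 : ∀ A : MvPolynomial (Fin c) κ, aeval (fun i => fr (X i)) A = fr A := by
    intro A
    have h2 : (aeval fun i => fr (X i) : MvPolynomial (Fin c) κ →ₐ[κ]
        FractionRing (MvPolynomial (Fin c) κ)) = IsScalarTower.toAlgHom κ (MvPolynomial (Fin c) κ)
          (FractionRing (MvPolynomial (Fin c) κ)) := by
      refine algHom_ext fun i => ?_
      rw [aeval_X]
      rfl
    rw [h2]
    rfl
  have h2 : ∀ i, aeval (fun i => fr (X i)) (f.den i) ≠ 0 := by
    intro i h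
    rw [h1] at h
    exact hden i (hinj (h.trans (map_zero fr).symm))
  have h3 := aeval_hc κ (FractionRing (MvPolynomial (Fin c) κ)) c f P.totalDegree P
    (fun i => fr (X i)) le_rfl h2
  rw [h1, h1] at h3
  have h4 : aeval (fvn f fun i => fr (X i)) P = f.comp P := by
    rw [RM.comp]
    congr 2
    funext i
    rw [fvn, h1, h1]
  rw [h4] at h3
  have h5 : fr (P * N * dd f ^ P.totalDegree) = fr (E * hcn f P.totalDegree P) := by
    rw [map_mul, hEN, map_mul, h3, map_pow]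
    ring
  have h6 : P ∣ E * hcn f P.totalDegree P := by
    rw [← hinj h5, mul_assoc]
    exact Dvd.intro _ rfl
  exact (hP.prime.dvd_or_dvd h6).resolve_left hE

end HcnM

theorem tHcn : StmtHcn :=
  ⟨HcnM.map_hc, HcnM.aeval_hc, HcnM.keeps_of, HcnM.dvd_of⟩

end Pool.Agent.Lib.MP_16285c_agX
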