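import Pool.Agent.Lib.MP_16285c_agX.Hrn.SpecC
import Pool.Agent.Lib.MP_16285c_agX.BoxDefs
import Pool.Agent.ZDO.Box2

/-!
# Frobenius places of rational self-maps of hypersurfaces: statements

Section B of note 4936 on `MP_16285c_ag`: the package `Lib/MP_16285c_agS/Box` for a hypersurface `P = 0` in affine `(n+1)`-space, any `n`, with
`StmtHrun`, `StmtDomJ` in place of `StmtHrux`, and without the condition on `jX`. The files are edits of the landed files `Lib/MP_16285c_agS/Box/*.lean`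
(and `Fin/Box.lean`). Conventions as in `Hrn/Spec.lean`: file `Box/X.lean`, `theorem tX : …`, namespace `Pool.Agent.Lib.MP_16285c_agX`, auxiliary lemmas in `XM`.
-/

set_option autoImplicit false

namespace Pool.Agent.Lib.MP_16285c_agX

open MvPolynomial
open Pool.Agent.Lib.MP_16285c_ag (RM FrobPt Lies red)
open Pool.Agent.ZDO (Wd Jc ClN dd nn hz)

/-- The numerator of `A ∘ f` for the denominator `(dd f) ^ N`, `N ≥` the total degree of `A`. -/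
noncomputable def hcn {R : Type} [CommRing R] {c : ℕ} (f : RM R c) (N : ℕ) (A : MvPolynomial (Fin c) R) :
    MvPolynomial (Fin c) R :=
  bind₁ (Fin.cons (α := fun _ => MvPolynomial (Fin c) R) (dd f) (nn f)) (hz N A)

/-- (B1) The numerator of `A ∘ f`. PROOF. Edit `Lib/MP_16285c_agS/Box/Hc.lean` (`StmtHc`). -/
def StmtHcn : Prop :=
  (∀ (R S : Type) [CommRing R] [CommRing S] (φ : R →+* S) (c : ℕ) (f : RM R c) (N : ℕ) (A : MvPolynomial (Fin c) R),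
    map φ (hcn f N A) = hcn (f.map φ) N (map φ A)) ∧
  (∀ (κ L : Type) [Field κ] [Field L] [Algebra κ L] (c : ℕ) (f : RM κ c) (N : ℕ) (A : MvPolynomial (Fin c) κ) (ξ : Fin c → L),
    A.totalDegree ≤ N → (∀ i, aeval ξ (f.den i) ≠ 0) →
    aeval ξ (hcn f N A) = aeval ξ (dd f) ^ N * aeval (fvn f ξ) A) ∧
  (∀ (κ : Type) [Field κ] (c : ℕ) (P : MvPolynomial (Fin c) κ) (f : RM κ c) (N : ℕ), P.totalDegree ≤ N → P ∣ hcn f N P → KeepsN P f) ∧
  ∀ (κ : Type) [Field κ] (c : ℕ) (P : MvPolynomial (Fin c) κ) (f : RM κ c), Irreducible P → (∀ i, f.den i ≠ 0) →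
    (∃ E N : MvPolynomial (Fin c) κ, ¬ P ∣ E ∧
      algebraMap (MvPolynomial (Fin c) κ) (FractionRing (MvPolynomial (Fin c) κ)) (P * N) =
        algebraMap (MvPolynomial (Fin c) κ) (FractionRing (MvPolynomial (Fin c) κ)) E * f.comp P) →
    P ∣ hcn f P.totalDegree P

/-- (B2) Non-divisibility is preserved by reduction. PROOF (uses `StmtNm`; edit `Lib/MP_16285c_agS/Box/Stay.lean`, `StmtStay`). `P` is monic in `X 0` of positive degree. `R = nm P G ≠ 0` and `rename Fin.succ R = P * U + G * V` over `k`. Let `S` be the set of all coefficients of `U`, `V`, `R`. Let `R₀ ⊇ S`, `P₀, G₀` over `R₀` with images `P, G`; `U, V, R` come from `U₀, V₀, R'` over `R₀`, `rename R' = P₀ U₀ + G₀ V₀`.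
Let `r ≠ 0` be one coefficient of `R`, `φ r ≠ 0`. If `map φ P₀ ∣ map φ G₀` then `map φ P₀ ∣ rename (map φ R')`, which does not involve `X 0`, while `map φ P₀` is monic in `X 0` of positive degree; so `map φ R' = 0`, a contradiction. -/
def StmtStayN : Prop :=
  StmtNm → ∀ (k : Type) [Field k] (m : ℕ) (P G : MvPolynomial (Fin (m + 1)) k), Irreducible P → Mon P → ¬ P ∣ G →
    ∃ (S : Finset k) (r : k), r ≠ 0 ∧ r ∈ S ∧ ∀ R₀ : Subring k, (S : Set k) ⊆ R₀ →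
      ∀ (P₀ G₀ : MvPolynomial (Fin (m + 1)) R₀), map R₀.subtype P₀ = P → map R₀.subtype G₀ = G →
      ∀ (κ : Type) [Field κ] (φ : R₀ →+* κ), (∀ r' : R₀, (r' : k) = r → φ r' ≠ 0) →
        ¬ map φ P₀ ∣ map φ G₀

/-- (B2') Irreducibility in families. PROOF (edit the proof of `StmtBN3` in `Lib/MP_16285c_agS/Hrx/Thr.lean`). Apply `Bez.StmtBN` with `n = m` to `finSuccEquiv R m P`. -/
def StmtBNn : Prop :=
  Pool.Agent.Lib.MP_16285c_agS.Bez.StmtBN →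
  ∀ (R Ω : Type) [CommRing R] [IsDomain R] [Field Ω] [IsAlgClosed Ω] (ι : R →+* Ω), Function.Injective ι →
    ∀ (m : ℕ) (P : MvPolynomial (Fin (m + 1)) R), Mon P → Irreducible (map ι P) →
      ∃ g : R, g ≠ 0 ∧ ∀ (F : Type) [Field F] (φ : R →+* F), φ g ≠ 0 → Irreducible (map φ P)

/-- (B3) The place and the Frobenius point. PROOF (edit `Lib/MP_16285c_agS/Box/Modp.lean`, `StmtModp`). `N = P.totalDegree`. `G = B * dd f * Jc f` is not divisible by the prime `P`. Let `hcn f N P = P * W`. `StmtStayN` gives `S₁`, `r₁`. Let `S` contain `S₁` and all coefficients of `P`, `B`, `W`, `num i`, `den i` (`SpreadAux.Ev`), `R₀ = Subring.closure S`, `P₀, B₀, W₀, f₀` over `R₀`; `P₀` is monic in `X 0` and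
`P₀ * W₀ = hcn f₀ N P₀` (injectivity). `StmtBNn` for `R = R₀`, `Ω = k`, `ι = R₀.subtype` gives `g ∈ R₀`, `g ≠ 0`. `placeP` for `S₂ = {g, r₁, (p₀)!}`: `V`, `p`, `s₀`; `p > p₀`. As in `box2` let `κ₁` = the algebraic closure of `ZMod p` in the residue field, `ψ₁ : R₀ →+* κ₁`, `τ ∘ ψ₁ = red`; every element of `κ₁` is fixed by some `x ↦ x ^ p ^ m` (`alg_pow`). `P̄ = map ψ₁ P₀` is irreducible, monic,
`f̄ = f₀.map ψ₁`; `P̄` does not divide `map ψ₁ G₀ = B̄ * dd f̄ * Jc f̄` (`StmtStayN`; `dd_map`, `map_Jc`), so not the factors (`den i ∣ dd`); `KeepsN P̄ f̄` by `StmtHcn` (1), (3); `DomN P̄ f̄` by `StmtDomJ`. `StmtHrun` for `B = map ψ₁ G₀` and `s₀` gives `s`, `s₀ ∣ s`, and `a₁`; `a = τ ∘ a₁`. `red r ^ p ^ s = red r` as `s₀ ∣ s`; `a i ^ p ^ r₀ = a i` by `exists_exponent` (`ZDO/Fmt.lean`). -/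
def StmtModpN : Prop :=
  ∀ (k : Type) [Field k] [IsAlgClosed k] [CharZero k] (m : ℕ) (P B : MvPolynomial (Fin (m + 1)) k) (f : RM k (m + 1)), Irreducible P → Mon P →
    (∀ i, ¬ P ∣ f.den i) → ¬ P ∣ Jc f → P ∣ hcn f P.totalDegree P → ¬ P ∣ B → ∀ p₀ : ℕ,
    ∃ (V : ValuationSubring k) (S : Finset k) (R₀ : Subring k) (_ : R₀ = Subring.closure (S : Set k))
      (hR : ∀ r ∈ R₀, r ∈ V) (p s r₀ : ℕ) (f₀ : RM R₀ (m + 1)) (P₀ B₀ W₀ : MvPolynomial (Fin (m + 1)) R₀)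
      (a : Fin (m + 1) → IsLocalRing.ResidueField V), p.Prime ∧ p₀ < p ∧ CharP (IsLocalRing.ResidueField V) p ∧ 1 ≤ s ∧
      (∀ r, red V R₀ hR r ^ p ^ s = red V R₀ hR r) ∧ f₀.map R₀.subtype = f ∧ map R₀.subtype P₀ = P ∧
      map R₀.subtype B₀ = B ∧ Mon P₀ ∧ P₀ * W₀ = hcn f₀ P.totalDegree P₀ ∧ 1 ≤ r₀ ∧ (∀ i, a i ^ p ^ r₀ = a i) ∧
      FrobPt (f₀.map (red V R₀ hR)) (p ^ s) a ∧ eval a (map (red V R₀ hR) P₀) = 0 ∧
      eval a (map (red V R₀ hR) B₀) ≠ 0 ∧ eval a (Jc (f₀.map (red V R₀ hR))) ≠ 0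

/-- (B4) Orbits over the Frobenius point. PROOF: edit `Lib/MP_16285c_agS/Box/OrbS.lean` (`StmtOrbS`). -/
def StmtOrbN : Prop :=
  StmtHcn → ∀ (k : Type) [Field k] (m : ℕ) (P : MvPolynomial (Fin (m + 1)) k) (V : ValuationSubring k) (S : Finset k) (R₀ : Subring k)
    (_ : R₀ = Subring.closure (S : Set k)) (hR : ∀ r ∈ R₀, r ∈ V) (p s r₀ : ℕ) (f₀ : RM R₀ (m + 1))
    (P₀ B₀ W₀ : MvPolynomial (Fin (m + 1)) R₀) (a : Fin (m + 1) → IsLocalRing.ResidueField V), p.Prime →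
    CharP (IsLocalRing.ResidueField V) p → 1 ≤ s → (∀ r, red V R₀ hR r ^ p ^ s = red V R₀ hR r) →
    map R₀.subtype P₀ = P → P₀ * W₀ = hcn f₀ P.totalDegree P₀ → 1 ≤ r₀ → (∀ i, a i ^ p ^ r₀ = a i) →
    FrobPt (f₀.map (red V R₀ hR)) (p ^ s) a → eval a (map (red V R₀ hR) B₀) ≠ 0 →
    eval a (Jc (f₀.map (red V R₀ hR))) ≠ 0 →
    ∃ N : ℕ, 1 ≤ N ∧ ∀ x₀ : Fin (m + 1) → k, (∀ i, Lies V (x₀ i) (a i)) → eval x₀ P = 0 →
      ∃ x : ℕ → Fin (m + 1) → k, x 0 = x₀ ∧ (f₀.map R₀.subtype).Orb x ∧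
        (∀ j, eval (x j) P = 0 ∧ eval (x j) (map R₀.subtype B₀) ≠ 0) ∧ ClN N p x

/-- (B5) Points of the hypersurface over `a`. PROOF: edit `Lib/MP_16285c_agS/Box/RootV.lean` (`StmtRootV`). -/
def StmtRootN : Prop :=
  ∀ (k : Type) [Field k] [IsAlgClosed k] (m : ℕ) (V : ValuationSubring k) (R₀ : Subring k) (hR : ∀ r ∈ R₀, r ∈ V)
    (P₀ : MvPolynomial (Fin (m + 1)) R₀) (a : Fin (m + 1) → IsLocalRing.ResidueField V), Mon P₀ →
    eval a (map (red V R₀ hR) P₀) = 0 → ∀ t : Fin m → k, (∀ i, Lies V (t i) (a i.succ)) →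
    ∃ z₀ : k, Lies V z₀ (a 0) ∧ eval (Fin.cons z₀ t : Fin (m + 1) → k) (map R₀.subtype P₀) = 0

/-- (B6) The box: `StmtBoxX` of `BoxDefs.lean` follows from `StmtHcn`, `StmtModpN`, `StmtOrbN`, `StmtRootN` (edit `Lib/MP_16285c_agS/Box/BoxS.lean` and `Fin/Box.lean`; `MonZ P` is `Mon P`, `jac f` is `Jc f`, `f.den i ≠ 0` as `¬ P ∣ f.den i`, `fr` is the `algebraMap`). -/
def StmtBoxB : Prop := StmtHcn → StmtModpN → StmtOrbN → StmtRootN → StmtBoxX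

end Pool.Agent.Lib.MP_16285c_agX
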