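import Pool.Agent.Lib.MP_16285c_agX.Box.Spec

/-!
# Irreducibility in families (proof of `StmtBNn`)
-/

set_option autoImplicit false

namespace Pool.Agent.Lib.MP_16285c_agX

open MvPolynomial
open Pool.Agent.Lib.MP_16285c_ag (RM FrobPt Lies red)
open Pool.Agent.ZDO (Wd Jc ClN dd nn hz)

namespace BNnM

variable {F S : Type} [CommRing F] [CommRing S] {r : ℕ}

theorem fse_C (c : F) : finSuccEquiv F r (C c) = Polynomial.C (C c) := by
  exact (finSuccEquiv F r).commutes c

theorem fse_map (φ : F →+* S) (G : MvPolynomial (Fin (r + 1)) F) :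
    finSuccEquiv S r (map φ G) = (finSuccEquiv F r G).map (map φ) := by
  induction G using MvPolynomial.induction_on with
  | C a => rw [map_C, fse_C, fse_C, Polynomial.map_C, map_C]
  | add p q hp hq => rw [map_add, map_add, map_add, hp, hq, Polynomial.map_add]
  | mul_X p i hp =>
    rw [map_mul, map_mul, map_mul, hp, Polynomial.map_mul, map_X]
    congr 1
    refine Fin.cases ?_ (fun j => ?_) i
    · rw [finSuccEquiv_X_zero, finSuccEquiv_X_zero, Polynomial.map_X]
    · rw [finSuccEquiv_X_succ, finSuccEquiv_X_succ, Polynomial.map_C, map_X]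

theorem irr_fse (G : MvPolynomial (Fin (r + 1)) F) :
    Irreducible (finSuccEquiv F r G) ↔ Irreducible G :=
  MulEquiv.irreducible_iff (finSuccEquiv F r).toMulEquiv

end BNnM

/-- (B2'). -/
theorem tBNn : StmtBNn := by
  intro hBN R Ω _ _ _ _ ι hι m P hm hP
  have h1 : Irreducible ((finSuccEquiv R m P).map (map ι)) := by
    rw [← BNnM.fse_map]
    exact (BNnM.irr_fse _).2 hP
  obtain ⟨g, hg, h⟩ := hBN R Ω ι hι m (finSuccEquiv R m P) hm h1
  refine ⟨g, hg, fun F _ φ hφ => ?_⟩
  have h2 := h F φ hφ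
  rw [← BNnM.fse_map] at h2
  exact (BNnM.irr_fse _).1 h2

end Pool.Agent.Lib.MP_16285c_agX
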