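import Pool.Agent.Lib.MP_16285c_agX.Box.Spec

/-!
# The box on a hypersurface, in the format of the assembly
-/

set_option autoImplicit false

namespace Pool.Agent.Lib.MP_16285c_agX

open MvPolynomial
open Pool.Agent.Lib.MP_16285c_ag (RM FrobPt Lies red)
open Pool.Agent.ZDO (Wd Jc ClN dd nn hz)

/-- (B6) The box. -/
theorem tBoxB : StmtBoxB := by
  intro hHc hModp hOrb hRoot
  intro k _ _ _ m P f hP hMon hI B hB p₀
  obtain ⟨hden, hJ, hinv⟩ := hI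
  have hdvd := hHc.2.2.2 k (m + 1) P f hP
    (fun i h0 => hden i (by rw [h0]; exact dvd_zero P)) hinv
  obtain ⟨V, S, R₀, hR₀, hR, p, s, r₀, f₀, P₀, B₀, W₀, a, hp, hpp, hch, hs, hfix, hf, hPm, hBm,
    hMon0, hPW, hr₀, ha, hFr, hPa, hBa, hJa⟩ := hModp k m P B f hP hMon hden hJ hdvd hB p₀
  obtain ⟨N, hN, hx⟩ := hOrb hHc k m P V S R₀ hR₀ hR p s r₀ f₀ P₀ B₀ W₀ a hp hch hs hfix hPm hPW
    hr₀ ha hFr hBa hJa
  refine ⟨V, p, a, N, hp, hpp, hch, hN, ⟨r₀, hr₀, ha⟩, ?_, ?_⟩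
  · intro t ht
    obtain ⟨z₀, hz, he⟩ := hRoot k m V R₀ hR P₀ a hMon0 hPa t ht
    rw [hPm] at he
    exact ⟨z₀, hz, he⟩
  · intro x₀ hx₀ hPx
    obtain ⟨x, hx0, horb, hall, hcl⟩ := hx x₀ hx₀ hPx
    rw [hf] at horb
    rw [hBm] at hall
    exact ⟨x, hx0, horb, hall, hcl⟩

end Pool.Agent.Lib.MP_16285c_agX
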