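import Pool.Agent.Lib.MP_16285c_agX.Box.Spec

/-!
# The place and the Frobenius point of a rational self-map of a hypersurface

Proof of `StmtModpN` (B3 of `Box/Spec.lean`) from `StmtHrun`, `StmtDomJ`, `StmtNm`, irreducibility in families, `StmtHcn`, `StmtStayN`; edit of
`Pool/Agent/Lib/MP_16285c_agS/Box/Modp.lean`, the pattern is the proof of `box2` in `Pool/Agent/ZDO/Box2.lean`.
-/

set_option autoImplicit false

namespace Pool.Agent.Lib.MP_16285c_agX

open MvPolynomial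
open Pool.Agent.Lib.MP_16285c_ag (RM FrobPt Lies red SpreadAux.Ev SpreadAux.liftM placeP closedP)
open Pool.Agent.ZDO (Wd Jc dd nn hz dd_map dd_eq map_Wd map_Jc alg_pow exists_exponent totalDegree_map_le)

namespace ModpNM

section nat

variable {R S : Type} [CommRing R] [CommRing S] (φ : R →+* S) {c : ℕ}

theorem fse_map (p : MvPolynomial (Fin (c + 1)) R) :
    finSuccEquiv S c (map φ p) = (finSuccEquiv R c p).map (map φ) := by
  ext i m
  rw [finSuccEquiv_coeff_coeff, coeff_map, Polynomial.coeff_map, coeff_map, finSuccEquiv_coeff_coeff]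

theorem mon_map {P : MvPolynomial (Fin (c + 1)) R} (h : Mon P) : Mon (map φ P) := by
  rw [Mon, fse_map]
  exact Polynomial.Monic.map _ h

theorem mon_of_map (hφ : Function.Injective φ) {P : MvPolynomial (Fin (c + 1)) R} (h : Mon (map φ P)) :
    Mon P := by
  rw [Mon, fse_map] at h
  exact Polynomial.monic_of_injective (map_injective φ hφ) h

theorem deg_map (hφ : Function.Injective φ) (P : MvPolynomial (Fin (c + 1)) R) :
    (map φ P).totalDegree = P.totalDegree := by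
  rw [totalDegree, totalDegree, support_map_of_injective P hφ]

end nat

/-- The ring of definition. -/
theorem ev_def {k : Type} [Field k] {c : ℕ} (P B W : MvPolynomial (Fin (c + 1)) k) (f : RM k (c + 1)) (S₁ : Finset k) :
    SpreadAux.Ev fun R₀ : Subring k => (S₁ : Set k) ⊆ R₀ ∧
      ∃ (f₀ : RM R₀ (c + 1)) (P₀ B₀ W₀ : MvPolynomial (Fin (c + 1)) R₀),
        f₀.map R₀.subtype = f ∧ map R₀.subtype P₀ = P ∧ map R₀.subtype B₀ = B ∧
        map R₀.subtype W₀ = W := by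
  classical
  have h0 : SpreadAux.Ev fun R₀ : Subring k => (S₁ : Set k) ⊆ R₀ := ⟨S₁, fun R₀ h => h⟩
  have h1 : SpreadAux.Ev fun R₀ : Subring k => ∀ i ∈ (Finset.univ : Finset (Fin (c + 1))),
      (∃ G₀ : MvPolynomial (Fin (c + 1)) R₀, map R₀.subtype G₀ = f.num i) ∧
        ∃ G₀ : MvPolynomial (Fin (c + 1)) R₀, map R₀.subtype G₀ = f.den i := by
    induction (Finset.univ : Finset (Fin (c + 1))) using Finset.induction_on with
    | empty => exact ⟨∅, fun R₀ _ i hi => absurd hi (Finset.notMem_empty i)⟩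
    | insert i s _ ih =>
      refine (((SpreadAux.liftM (f.num i)).and (SpreadAux.liftM (f.den i))).and ih).mono ?_
      rintro R₀ ⟨h2, h3⟩ j hj
      rw [Finset.mem_insert] at hj
      rcases hj with rfl | hj
      · exact h2
      · exact h3 j hj
  refine ((h0.and h1).and (((SpreadAux.liftM P).and (SpreadAux.liftM B)).and
    (SpreadAux.liftM W))).mono ?_
  rintro R₀ ⟨⟨h0', h2⟩, ⟨⟨P₀, hP₀⟩, B₀, hB₀⟩, W₀, hW₀⟩
  choose num hnum using fun i => (h2 i (Finset.mem_univ i)).1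
  choose den hden using fun i => (h2 i (Finset.mem_univ i)).2
  refine ⟨h0', ⟨num, den⟩, P₀, B₀, W₀, ?_, hP₀, hB₀, hW₀⟩
  cases f
  rw [RM.map]
  congr 1
  · funext i
    exact hnum i
  · funext i
    exact hden i

end ModpNM

open ModpNM

theorem tModpN : StmtHrun → StmtDomJ → StmtNm →
    (∀ (R Ω : Type) [CommRing R] [IsDomain R] [Field Ω] [IsAlgClosed Ω] (ι : R →+* Ω), Function.Injective ι →
      ∀ (m : ℕ) (P : MvPolynomial (Fin (m + 1)) R), Mon P → Irreducible (map ι P) →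
        ∃ g : R, g ≠ 0 ∧ ∀ (F : Type) [Field F] (φ : R →+* F), φ g ≠ 0 → Irreducible (map φ P)) →
    StmtHcn → StmtStayN → StmtModpN := by
  classical
  intro hH hDJ hNm hBN hHc hSt k _ _ _ m P B f hirr hmon hden hJc hdvd hB p₀
  obtain ⟨hHc1, -, hHc3, -⟩ := hHc
  have hprime : Prime P := hirr.prime
  obtain ⟨W, hW⟩ := hdvd
  have hG : ¬ P ∣ B * dd f * Jc f := by
    intro h
    rcases hprime.dvd_or_dvd h with h | h
    · rcases hprime.dvd_or_dvd h with h | h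
      · exact hB h
      · rw [dd] at h
        obtain ⟨i, -, hi⟩ := (Prime.dvd_finsetProd_iff hprime _).1 h
        exact hden i hi
    · exact hJc h
  obtain ⟨S₁, r₁, hr₁0, hr₁S, hstay⟩ := hSt hNm k m P (B * dd f * Jc f) hirr hmon hG
  obtain ⟨S, hS⟩ := ev_def P B W f S₁
  have hPl := fun S₂ => placeP k S S₂
  obtain ⟨R₀, hR₀⟩ : ∃ R₀ : Subring k, R₀ = Subring.closure (S : Set k) := ⟨_, rfl⟩
  rw [← hR₀] at hPl
  obtain ⟨hS₁, f₀, P₀, B₀, W₀, hf₀, hP₀, hB₀, hW₀⟩ :=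
    hS R₀ (by rw [hR₀]; exact Subring.subset_closure)
  have hinj : Function.Injective R₀.subtype := Subtype.val_injective
  have hinjM : Function.Injective
      (map R₀.subtype : MvPolynomial (Fin (m + 1)) R₀ →+* MvPolynomial (Fin (m + 1)) k) :=
    map_injective _ hinj
  have hmon₀ : Mon P₀ := mon_of_map R₀.subtype hinj (by rw [hP₀]; exact hmon)
  have hhc₀ : P₀ * W₀ = hcn f₀ P.totalDegree P₀ := by
    apply hinjM
    rw [map_mul, hP₀, hW₀, hHc1, hf₀, hP₀]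
    exact hW.symm
  obtain ⟨g, hg0, hg⟩ := hBN R₀ k R₀.subtype hinj m P₀ hmon₀ (by rw [hP₀]; exact hirr)
  -- the polynomial which is not allowed to be divisible
  obtain ⟨G₀, hG₀⟩ : ∃ G₀, G₀ = B₀ * dd f₀ * Jc f₀ := ⟨_, rfl⟩
  have hGm : ∀ {T : Type} [CommRing T] (φ : R₀ →+* T), map φ G₀ =
      map φ B₀ * dd (f₀.map φ) * Jc (f₀.map φ) := by
    intro T _ φ
    rw [hG₀, map_mul, map_mul, ← dd_map, ← map_Jc]
  have hGk : map R₀.subtype G₀ = B * dd f * Jc f := by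
    rw [hGm, hB₀, hf₀]
  -- the place
  obtain ⟨V, hR, p, s₀, hp, hs₀, hchar, hfix, hne⟩ := hPl
    {(g : k), r₁, ((p₀.factorial : ℕ) : k)}
    (by
      intro h
      rw [Finset.mem_insert, Finset.mem_insert, Finset.mem_singleton] at h
      rcases h with h | h | h
      · exact hg0 (Subtype.ext h.symm)
      · exact hr₁0 h.symm
      · exact p₀.factorial_ne_zero (by exact_mod_cast h.symm))
    (by
      intro z hz
      rw [Finset.mem_coe, Finset.mem_insert, Finset.mem_insert, Finset.mem_singleton] at hz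
      rcases hz with rfl | rfl | rfl
      · exact SetLike.coe_mem _
      · exact hS₁ hr₁S
      · exact natCast_mem R₀ _)
  have : Fact p.Prime := ⟨hp⟩
  have := hchar
  have hcl := closedP k V
  have hpp : p₀ < p := by
    by_contra h
    have h1 : p ∣ p₀.factorial := (Nat.Prime.dvd_factorial hp).2 (not_lt.1 h)
    refine hne ((p₀.factorial : ℕ) : R₀) ?_ ?_
    · rw [Finset.mem_insert, Finset.mem_insert, Finset.mem_singleton]
      right
      right
      exact_mod_cast rfl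
    · rw [map_natCast]
      exact (CharP.cast_eq_zero_iff _ p _).2 h1
  obtain ⟨ψ, hψ⟩ : ∃ ψ, ψ = red V R₀ hR := ⟨_, rfl⟩
  have hfix' : ∀ r, ψ r ^ p ^ s₀ = ψ r := by
    rw [hψ]
    exact hfix
  have hψg : ψ g ≠ 0 := by
    rw [hψ]
    exact hne g (Finset.mem_insert_self _ _)
  have hψr : ∀ r' : R₀, (r' : k) = r₁ → ψ r' ≠ 0 := by
    intro r' hr'
    rw [hψ]
    refine hne r' ?_
    rw [hr', Finset.mem_insert, Finset.mem_insert]
    exact Or.inr (Or.inl rfl)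
  -- the algebraic closure of the prime field
  let _ : Algebra (ZMod p) (IsLocalRing.ResidueField V) := ZMod.algebra _ p
  have hcl1 : IsAlgClosed (algebraicClosure (ZMod p) (IsLocalRing.ResidueField V)) :=
    IsAlgClosure.isAlgClosed (ZMod p)
  have hmem1 : ∀ r, ψ r ∈ algebraicClosure (ZMod p) (IsLocalRing.ResidueField V) := by
    intro r
    rw [mem_algebraicClosure_iff]
    refine ⟨Polynomial.X ^ p ^ s₀ - Polynomial.X, FiniteField.X_pow_card_pow_sub_X_ne_zero _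
      (by omega) hp.one_lt, ?_⟩
    rw [map_sub, map_pow, Polynomial.aeval_X, hfix', sub_self]
  have hcl2 : ∃ (κ₁ : Type) (_ : Field κ₁) (_ : IsAlgClosed κ₁) (_ : CharP κ₁ p)
      (τ : κ₁ →+* IsLocalRing.ResidueField V) (ψ₁ : R₀ →+* κ₁), τ.comp ψ₁ = ψ ∧
      ∀ z : κ₁, ∃ m, 1 ≤ m ∧ z ^ p ^ m = z := by
    refine ⟨algebraicClosure (ZMod p) (IsLocalRing.ResidueField V), inferInstance, hcl1,
      charP_of_injective_algebraMap (algebraMap (ZMod p) _).injective p,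
      (algebraicClosure (ZMod p) (IsLocalRing.ResidueField V)).val.toRingHom,
      ψ.codRestrict _ hmem1, ?_, ?_⟩
    · ext r
      rfl
    · intro z
      exact alg_pow p z (Algebra.IsAlgebraic.isAlgebraic (R := ZMod p) z)
  obtain ⟨κ₁, _, _, _, τ, ψ₁, hτψ, hκ₁⟩ := hcl2
  have hτ : ∀ r, τ (ψ₁ r) = ψ r := fun r => by rw [← hτψ]; rfl
  have hψ₁ : ∀ r, ψ r ≠ 0 → ψ₁ r ≠ 0 := by
    intro r hr h
    apply hr
    rw [← hτ, h, map_zero]
  -- the reduction
  have hnd : ¬ map ψ₁ P₀ ∣ map ψ₁ G₀ :=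
    hstay R₀ hS₁ P₀ G₀ hP₀ hGk κ₁ ψ₁ fun r' hr' => hψ₁ r' (hψr r' hr')
  have hirr₁ : Irreducible (map ψ₁ P₀) := hg κ₁ ψ₁ (hψ₁ g hψg)
  have hmon₁ : Mon (map ψ₁ P₀) := mon_map ψ₁ hmon₀
  have hden₁ : ∀ i, ¬ map ψ₁ P₀ ∣ (f₀.map ψ₁).den i := by
    intro i hi
    apply hnd
    rw [hGm, dd_eq (f₀.map ψ₁) i]
    exact Dvd.dvd.mul_right (Dvd.dvd.mul_left (Dvd.dvd.mul_right hi _) _) _
  have hJc₁ : ¬ map ψ₁ P₀ ∣ Jc (f₀.map ψ₁) := by
    intro h
    apply hnd
    rw [hGm]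
    exact Dvd.dvd.mul_left h _
  have hK₁ : KeepsN (map ψ₁ P₀) (f₀.map ψ₁) := by
    refine hHc3 κ₁ (m + 1) (map ψ₁ P₀) (f₀.map ψ₁) P.totalDegree ?_ ?_
    · rw [← hP₀, deg_map R₀.subtype hinj]
      exact totalDegree_map_le _ _
    · rw [← hHc1, ← hhc₀, map_mul]
      exact dvd_mul_right _ _
  have hD₁ : DomN (map ψ₁ P₀) (f₀.map ψ₁) :=
    hDJ κ₁ m (map ψ₁ P₀) (f₀.map ψ₁) hirr₁ hmon₁ hden₁ hJc₁ hK₁
  obtain ⟨s, hs1, hs₀s, a₁, ha₁P, ha₁F, ha₁G⟩ :=
    hH κ₁ p hκ₁ m (map ψ₁ P₀) (map ψ₁ G₀) (f₀.map ψ₁) hirr₁ hden₁ hK₁ hD₁ hnd s₀ hs₀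
  obtain ⟨a, ha⟩ : ∃ a : Fin (m + 1) → IsLocalRing.ResidueField V, a = fun i => τ (a₁ i) := ⟨_, rfl⟩
  have hevτ : ∀ Q : MvPolynomial (Fin (m + 1)) R₀, eval a (map ψ Q) = τ (eval a₁ (map ψ₁ Q)) := by
    intro Q
    rw [ha, eval_map, eval_map, hom_eval₂, hτψ]
  have haG : eval a (map ψ G₀) ≠ 0 := by
    rw [hevτ]
    exact (map_ne_zero τ).2 ha₁G
  rw [hGm, map_mul, map_mul] at haG
  have haJ := right_ne_zero_of_mul haG
  have haB := left_ne_zero_of_mul (left_ne_zero_of_mul haG)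
  obtain ⟨r₀, hr₀, har⟩ := exists_exponent p hκ₁ (Finset.univ : Finset (Fin (m + 1))) a₁
  refine ⟨V, S, R₀, hR₀, hR, p, s, r₀, f₀, P₀, B₀, W₀, a, hp, hpp, hchar, hs1, ?_, hf₀, hP₀,
    hB₀, hmon₀, hhc₀, hr₀, ?_, ?_, ?_, ?_, ?_⟩
  · rw [← hψ]
    intro r
    obtain ⟨t, rfl⟩ := hs₀s
    clear hs1 ha₁F
    induction t with
    | zero => simp
    | succ t ih => rw [Nat.mul_succ, pow_add, pow_mul, ih, hfix']
  · intro i
    rw [ha]
    show τ (a₁ i) ^ p ^ r₀ = τ (a₁ i)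
    rw [← map_pow, har i (Finset.mem_univ i)]
  · rw [← hψ]
    intro i
    have h1 := ha₁F i
    have h2 : eval a ((f₀.map ψ).den i) = τ (eval a₁ ((f₀.map ψ₁).den i)) := hevτ (f₀.den i)
    have h3 : eval a ((f₀.map ψ).num i) = τ (eval a₁ ((f₀.map ψ₁).num i)) := hevτ (f₀.num i)
    refine ⟨?_, ?_⟩
    · rw [h2]
      exact (map_ne_zero τ).2 h1.1
    · rw [h2, h3, ← h1.2, map_mul, map_pow, ha]
  · rw [← hψ, hevτ, ha₁P, map_zero]
  · rw [← hψ]
    exact haB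
  · rw [← hψ]
    exact haJ

end Pool.Agent.Lib.MP_16285c_agX
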