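import Pool.Agent.Lib.MP_16285c_agX.Box.Spec

/-!
# Points of the hypersurface over a point of the residue field (B5)
-/

set_option autoImplicit false

namespace Pool.Agent.Lib.MP_16285c_agX

open MvPolynomial
open Pool.Agent.Lib.MP_16285c_ag (RM FrobPt Lies red inc)
open Pool.Agent.ZDO (Wd Jc ClN dd nn hz)

namespace RootNM

theorem ev {R S : Type} [CommRing R] [CommRing S] {m : ℕ} (φ : R →+* S) (z : S) (u : Fin m → S)
    (P : MvPolynomial (Fin (m + 1)) R) :
    eval₂Hom φ (Fin.cons z u : Fin (m + 1) → S) P =
      Polynomial.eval z ((finSuccEquiv R m P).map (eval₂Hom φ u)) := by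
  have h : eval₂Hom φ (Fin.cons z u : Fin (m + 1) → S) =
      (Polynomial.evalRingHom z).comp ((Polynomial.mapRingHom (eval₂Hom φ u)).comp
        (finSuccEquiv R m : MvPolynomial (Fin (m + 1)) R →+*
          Polynomial (MvPolynomial (Fin m) R))) := by
    apply MvPolynomial.ringHom_ext
    · intro r
      simp [finSuccEquiv_apply]
    · intro i
      refine Fin.cases ?_ (fun j => ?_) i
      · simp [finSuccEquiv_apply]
      · simp [finSuccEquiv_apply]
  exact RingHom.congr_fun h P

/-- A monic polynomial over a valuation ring of an algebraically closed field splits. -/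
theorem splits {k : Type} [Field k] [IsAlgClosed k] (V : ValuationSubring k) (g : Polynomial V)
    (hg : g.Monic) : g.Splits := by
  have hinj : Function.Injective (algebraMap V k) := IsFractionRing.injective _ _
  refine Polynomial.Splits.of_splits_map_of_injective hinj (IsAlgClosed.splits _) ?_
  intro r hr
  have hr0 : Polynomial.IsRoot (g.map (algebraMap V k)) r := Polynomial.isRoot_of_mem_roots hr
  have hri : IsIntegral V r := by
    refine ⟨g, hg, ?_⟩
    rw [← Polynomial.eval_map]
    exact hr0
  obtain ⟨y, hy⟩ := IsIntegrallyClosed.isIntegral_iff.1 hri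
  exact ⟨y, hy⟩

end RootNM

open RootNM in
theorem tRootN : StmtRootN := by
  intro k _ _ m V R₀ hR P₀ a hMon ha t ht
  choose hi hi' using ht
  obtain ⟨tV, htV⟩ : ∃ tV : Fin m → V, tV = fun i => ⟨t i, hi i⟩ := ⟨_, rfl⟩
  set g : Polynomial V := (finSuccEquiv R₀ m P₀).map (eval₂Hom (inc V R₀ hR) tV) with hg
  have hgm : g.Monic := hMon.map _
  have hgs := splits V g hgm
  have hev : ∀ z : V, g.eval z = eval₂Hom (inc V R₀ hR) (Fin.cons z tV : Fin (m + 1) → V) P₀ :=
    fun z => (ev _ z tV P₀).symm
  -- the reduction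
  have hred : (g.map (IsLocalRing.residue V)).eval (a 0) = 0 := by
    have h1 : g.map (IsLocalRing.residue V) = (finSuccEquiv R₀ m P₀).map
        (eval₂Hom (red V R₀ hR) (fun i => IsLocalRing.residue V (tV i))) := by
      rw [hg, Polynomial.map_map]
      congr 1
      apply MvPolynomial.ringHom_ext
      · intro r
        simp [red]
      · intro i
        simp
    have h2 : (Fin.cons (a 0) (fun i => IsLocalRing.residue V (tV i)) :
        Fin (m + 1) → IsLocalRing.ResidueField V) = a := by
      funext i
      refine Fin.cases ?_ (fun j => ?_) i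
      · rfl
      · rw [Fin.cons_succ, htV]
        exact hi' j
    rw [h1, ← ev, h2, coe_eval₂Hom, ← eval_map]
    exact ha
  have hroot : ∃ z ∈ g.roots, IsLocalRing.residue V z = a 0 := by
    rw [hgs.eq_prod_roots_of_monic hgm, Polynomial.map_multiset_prod, Multiset.map_map,
      Polynomial.eval_multiset_prod, Multiset.map_map, Multiset.prod_eq_zero_iff,
      Multiset.mem_map] at hred
    obtain ⟨z, hz, hz'⟩ := hred
    refine ⟨z, hz, ?_⟩
    simp only [Function.comp_apply, Polynomial.map_sub, Polynomial.map_X, Polynomial.map_C,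
      Polynomial.eval_sub, Polynomial.eval_X, Polynomial.eval_C] at hz'
    exact (sub_eq_zero.1 hz').symm
  obtain ⟨z, hz, hza⟩ := hroot
  refine ⟨(z : k), ⟨z.2, hza⟩, ?_⟩
  have h3 : g.eval z = 0 := Polynomial.isRoot_of_mem_roots hz
  rw [hev] at h3
  have h4 := congrArg (V.subtype) h3
  rw [map_zero, coe_eval₂Hom, MvPolynomial.hom_eval₂] at h4
  rw [eval_map]
  have h5 : (Fin.cons (z : k) t : Fin (m + 1) → k) =
      fun i => V.subtype ((Fin.cons z tV : Fin (m + 1) → V) i) := by
    funext i
    refine Fin.cases ?_ (fun j => ?_) i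
    · rfl
    · rw [Fin.cons_succ, Fin.cons_succ, htV]
      rfl
  rw [h5]
  exact h4

end Pool.Agent.Lib.MP_16285c_agX
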