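import Pool.Agent.Lib.MP_16285c_agX.Box.Spec

/-!
# Non-divisibility is preserved by reduction
-/

set_option autoImplicit false

namespace Pool.Agent.Lib.MP_16285c_agX

open MvPolynomial
open Pool.Agent.Lib.MP_16285c_ag (RM FrobPt Lies red SpreadAux.Ev SpreadAux.liftM)

namespace StayNM

theorem finSuccEquiv_map' {R F : Type} [CommRing R] [CommRing F] (m : ℕ) (φ : R →+* F)
    (p : MvPolynomial (Fin (m + 1)) R) :
    finSuccEquiv F m (map φ p) = (finSuccEquiv R m p).map (map φ) := by
  refine Polynomial.ext fun i => MvPolynomial.ext _ _ fun e => ?_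
  rw [finSuccEquiv_coeff_coeff, coeff_map, Polynomial.coeff_map, coeff_map,
    finSuccEquiv_coeff_coeff]

theorem finSuccEquiv_ren {κ : Type} [CommRing κ] (m : ℕ) (R : MvPolynomial (Fin m) κ) :
    finSuccEquiv κ m (rename Fin.succ R) = Polynomial.C R := by
  induction R using MvPolynomial.induction_on with
  | C a =>
    rw [rename_C, finSuccEquiv_apply]
    simp
  | add p q hp hq => rw [map_add, map_add, hp, hq, map_add]
  | mul_X p i hp => rw [map_mul, map_mul, hp, rename_X, finSuccEquiv_X_succ, map_mul]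

end StayNM

open StayNM

theorem tStayN : StmtStayN := by
  classical
  intro hE k _ m P G hirr hmon hG
  have hR0 := hE.2.1 k m P G hmon hirr.prime hG
  have hRmem := hE.1 k m P G hmon
  set R : MvPolynomial (Fin m) k := nm P G with hR
  obtain ⟨U, V, hUV⟩ := Ideal.mem_span_pair.1 hRmem
  obtain ⟨e, he⟩ := ne_zero_iff.1 hR0
  have hEv : SpreadAux.Ev fun R₀ : Subring k =>
      ((∃ U₀ : MvPolynomial (Fin (m + 1)) R₀, map R₀.subtype U₀ = U) ∧
        (∃ V₀ : MvPolynomial (Fin (m + 1)) R₀, map R₀.subtype V₀ = V)) ∧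
        ∃ R' : MvPolynomial (Fin m) R₀, map R₀.subtype R' = R :=
    ((SpreadAux.liftM U).and (SpreadAux.liftM V)).and (SpreadAux.liftM R)
  obtain ⟨S, hS⟩ := hEv
  refine ⟨insert (coeff e R) S, coeff e R, he, Finset.mem_insert_self _ _, ?_⟩
  intro R₀ hSR P₀ G₀ hP₀ hG₀ κ _ φ hφ hdvd
  have hSR' : (S : Set k) ⊆ R₀ := by
    refine subset_trans ?_ hSR
    rw [Finset.coe_insert]
    exact Set.subset_insert _ _
  obtain ⟨⟨⟨U₀, hU₀⟩, V₀, hV₀⟩, R', hR'⟩ := hS R₀ hSR'
  have hinj : Function.Injective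
      (map R₀.subtype : MvPolynomial (Fin (m + 1)) R₀ →+* MvPolynomial (Fin (m + 1)) k) :=
    map_injective _ Subtype.val_injective
  have hinj2 : Function.Injective
      (map R₀.subtype : MvPolynomial (Fin m) R₀ →+* MvPolynomial (Fin m) k) :=
    map_injective _ Subtype.val_injective
  have h1 : U₀ * P₀ + V₀ * G₀ = rename Fin.succ R' := by
    apply hinj
    rw [map_add, map_mul, map_mul, hU₀, hV₀, hP₀, hG₀, hUV, map_rename, hR']
  have h2 : map φ P₀ ∣ rename Fin.succ (map φ R') := by
    rw [← map_rename, ← h1, map_add, map_mul, map_mul]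
    exact dvd_add (dvd_mul_left _ _) (dvd_mul_of_dvd_right hdvd _)
  have h3 : map φ R' ≠ 0 := by
    intro h0
    have h4 := congrArg (coeff e) h0
    rw [coeff_map, coeff_zero] at h4
    refine hφ (coeff e R') ?_ h4
    rw [← hR', coeff_map]
    rfl
  -- the degree
  have h5 : (finSuccEquiv R₀ m P₀).Monic := by
    have h6 : ((finSuccEquiv R₀ m P₀).map (map R₀.subtype)).Monic := by
      rw [← finSuccEquiv_map', hP₀]
      exact hmon
    exact Polynomial.monic_of_injective hinj2 h6
  have h7 : (finSuccEquiv k m P).natDegree ≠ 0 := by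
    intro h0
    have h8 : finSuccEquiv k m P = 1 := Polynomial.eq_one_of_monic_natDegree_zero hmon h0
    have h9 : P = 1 := by
      apply (finSuccEquiv k m).injective
      rw [h8, map_one]
    exact hirr.not_isUnit (h9 ▸ isUnit_one)
  have h8 : (finSuccEquiv R₀ m P₀).natDegree = (finSuccEquiv k m P).natDegree := by
    rw [← hP₀, finSuccEquiv_map', Polynomial.natDegree_map_eq_of_injective hinj2]
  have h9 : (finSuccEquiv κ m (map φ P₀)).Monic := by
    rw [finSuccEquiv_map']
    exact h5.map _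
  have h10 : (finSuccEquiv κ m (map φ P₀)).natDegree ≠ 0 := by
    rw [finSuccEquiv_map', h5.natDegree_map, h8]
    exact h7
  have h11 : finSuccEquiv κ m (map φ P₀) ∣ Polynomial.C (map φ R') := by
    rw [← finSuccEquiv_ren]
    exact map_dvd (finSuccEquiv κ m) h2
  obtain ⟨q, hq⟩ := h11
  have hq0 : q ≠ 0 := by
    rintro rfl
    rw [mul_zero] at hq
    exact h3 (Polynomial.C_eq_zero.1 hq)
  have h12 := h9.natDegree_mul' hq0
  rw [← hq, Polynomial.natDegree_C] at h12
  omega

end Pool.Agent.Lib.MP_16285c_agX
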