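import Pool.Agent.Lib.MP_16285c_agX.Hrn.All
import Pool.Agent.Lib.MP_16285c_agX.Box.Hcn
import Pool.Agent.Lib.MP_16285c_agX.Box.StayN
import Pool.Agent.Lib.MP_16285c_agX.Box.BNn
import Pool.Agent.Lib.MP_16285c_agX.Box.ModpN
import Pool.Agent.Lib.MP_16285c_agX.Box.OrbN
import Pool.Agent.Lib.MP_16285c_agX.Box.RootN
import Pool.Agent.Lib.MP_16285c_agX.Box.BoxB

/-!
# Dense orbits on varieties of every dimension: the boxes (sections A and B of note 4936), without hypotheses
-/

set_option autoImplicit false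

namespace Pool.Agent.Lib.MP_16285c_agX

theorem aModpN : StmtModpN :=
  tModpN aHrun aDomJ tNm (tBNn Pool.Agent.Lib.MP_16285c_agS.Bez.aBN) tHcn tStayN

/-- Boxes on hypersurfaces of every dimension. -/
theorem aBoxX : StmtBoxX := tBoxB tHcn aModpN (tOrbN) tRootN

end Pool.Agent.Lib.MP_16285c_agX
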